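import Pool.Agent.Helper30.PGT.Expand

/-! Choice of the next path. -/

namespace Pool.Agent.Helper30.PGT

open Finset Pool.Agent.Helper30.Perc Pool.Agent.Helper22.PG

variable {V : Type} [DecidableEq V] {G : SimpleGraph V} [G.LocallyFinite] {d K C : ℕ} {v : ℕ → ℕ}

/-- total number of incidences between a vertex set and the balls around `Z` -/
lemma sum_near_le (hP : PolyG G d K C v) (Z X : Finset V) (r : ℕ) :
    ∑ x ∈ X, ((Z.filter fun z => G.dist x z ≤ r).card : ℝ) ≤ Z.card * v r := by
  have h1 : ∑ x ∈ X, (Z.filter fun z => G.dist x z ≤ r).card ≤ Z.card * v r := by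
    calc ∑ x ∈ X, (Z.filter fun z => G.dist x z ≤ r).card
        = ∑ x ∈ X, ∑ z ∈ Z, if G.dist x z ≤ r then 1 else 0 :=
          sum_congr rfl fun x _ => card_filter _ _
      _ = ∑ z ∈ Z, ∑ x ∈ X, if G.dist x z ≤ r then 1 else 0 := sum_comm
      _ ≤ ∑ _z ∈ Z, v r := by
          refine sum_le_sum fun z _ => ?_
          rw [← card_filter, ← hP.vol z r]
          refine card_le_card ?_
          intro x hx
          rw [mem_filter] at hx
          rw [mem_bl hP.conn, SimpleGraph.dist_comm]
          exact hx.2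
      _ = _ := by rw [sum_const, smul_eq_mul]
  exact_mod_cast h1

theorem choose_path (hP : PolyG G d K C v) (hgeo : GeoProp G v) (y a : V) (N Z : Finset V)
    (h p L R2 ρ : ℕ) (E : ℝ) (hE : 0 < E) (hN : N ⊆ bl G y (2 * h)) (hh : 3 * h ≤ p)
    (hya : G.dist y a ≤ 4 * p)
    (hcount : ((L + 1 : ℕ) : ℝ) * v (5 * p) * (Z.card * (v R2 + v (2 * ρ) / E)) <
      N.card * v h) :
    ∃ y1 ∈ N, ∃ y2, G.dist a y2 ≤ h ∧ ∃ w : G.Walk y1 y2, w.length = G.dist y1 y2 ∧
      (∀ k ≤ L, ∀ z ∈ Z, R2 < G.dist (w.getVert k) z) ∧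
      ∑ k ∈ range (L + 1), ((Z.filter fun z => G.dist (w.getVert k) z ≤ 2 * ρ).card : ℝ) < E := by
  classical
  by_contra hcon
  push Not at hcon
  set c : V → ℝ := fun x => ((Z.filter fun z => G.dist x z ≤ R2).card : ℝ) +
    ((Z.filter fun z => G.dist x z ≤ 2 * ρ).card : ℝ) / E with hc
  set X : Finset V := Z.biUnion fun z => bl G z (max R2 (2 * ρ)) with hX
  have hcX : ∀ x, x ∉ X → c x = 0 := by
    intro x hx
    have h1 : ∀ r, r ≤ max R2 (2 * ρ) → Z.filter (fun z => G.dist x z ≤ r) = ∅ := by
      intro r hr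
      rw [filter_eq_empty_iff]
      intro z hz hd
      apply hx
      rw [hX, mem_biUnion]
      refine ⟨z, hz, ?_⟩
      rw [mem_bl hP.conn, SimpleGraph.dist_comm]
      omega
    rw [hc]
    simp only
    rw [h1 R2 (le_max_left _ _), h1 (2 * ρ) (le_max_right _ _)]
    simp
  have hup := hgeo (5 * p) (range (L + 1)) c (fun x => by positivity) X hcX (N ×ˢ bl G a h) ?_ 1 ?_
  · rw [mul_one, card_product, hP.vol, card_range] at hup
    have h2 : ∑ x ∈ X, c x ≤ Z.card * (v R2 + v (2 * ρ) / E) := by
      rw [hc]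
      simp only
      rw [sum_add_distrib, ← sum_div]
      have h3 := sum_near_le hP Z X R2
      have h4 := div_le_div_of_nonneg_right (sum_near_le hP Z X (2 * ρ)) hE.le
      calc _ ≤ _ := add_le_add h3 h4
        _ = _ := by ring
    have h5 : ((L + 1 : ℕ) : ℝ) * v (5 * p) * ∑ x ∈ X, c x ≤
        ((L + 1 : ℕ) : ℝ) * v (5 * p) * (Z.card * (v R2 + v (2 * ρ) / E)) :=
      mul_le_mul_of_nonneg_left h2 (by positivity)
    push_cast at hup h5 hcount
    linarith
  · intro z hz
    rw [mem_product] at hz
    have h1 := (mem_bl hP.conn _ _ _).1 (hN hz.1)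
    have h2 := (mem_bl hP.conn _ _ _).1 hz.2
    have t1 := hP.conn.dist_triangle (u := z.1) (v := y) (w := z.2)
    have t2 := hP.conn.dist_triangle (u := y) (v := a) (w := z.2)
    rw [SimpleGraph.dist_comm (u := z.1) (v := y)] at t1
    omega
  · intro z hz w hw
    rw [mem_product] at hz
    have h2 := (mem_bl hP.conn _ _ _).1 hz.2
    by_cases hgood : ∀ k ≤ L, ∀ u ∈ Z, R2 < G.dist (w.getVert k) u
    · have h3 := hcon z.1 hz.1 z.2 h2 w hw hgood
      calc (1 : ℝ) ≤ (∑ k ∈ range (L + 1),
            ((Z.filter fun z => G.dist (w.getVert k) z ≤ 2 * ρ).card : ℝ)) / E := by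
            rwa [one_le_div hE]
        _ = ∑ k ∈ range (L + 1),
            ((Z.filter fun z => G.dist (w.getVert k) z ≤ 2 * ρ).card : ℝ) / E := by
            rw [sum_div]
        _ ≤ _ := sum_le_sum fun k _ => by
            rw [hc]
            simp only
            have : (0 : ℝ) ≤ ((Z.filter fun z => G.dist (w.getVert k) z ≤ R2).card : ℝ) :=
              Nat.cast_nonneg _
            linarith
    · push Not at hgood
      obtain ⟨k, hk, u, hu, hd⟩ := hgood
      have h3 : (1 : ℝ) ≤ c (w.getVert k) := by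
        rw [hc]
        simp only
        have h4 : 1 ≤ (Z.filter fun z => G.dist (w.getVert k) z ≤ R2).card :=
          card_pos.2 ⟨u, mem_filter.2 ⟨hu, hd⟩⟩
        have h5 : (1 : ℝ) ≤ (Z.filter fun z => G.dist (w.getVert k) z ≤ R2).card := by
          exact_mod_cast h4
        have h6 : (0 : ℝ) ≤
            ((Z.filter fun z => G.dist (w.getVert k) z ≤ 2 * ρ).card : ℝ) / E := by positivity
        linarith
      refine h3.trans (single_le_sum (f := fun k => c (w.getVert k)) (fun i _ => ?_)
        (mem_range.2 (by omega)))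
      positivity

/-- few claimed vertices near the path -/
lemma near_count (hconn : G.Connected) {y1 y2 : V} (w : G.Walk y1 y2) (Z : Finset V) (L ρ : ℕ)
    (hL : 2 * ρ ≤ L) :
    (Z.filter fun z => ∃ k ≤ L, G.dist (w.getVert k) z ≤ ρ).card * ρ ≤
      ∑ k ∈ range (L + 1), (Z.filter fun z => G.dist (w.getVert k) z ≤ 2 * ρ).card := by
  classical
  calc (Z.filter fun z => ∃ k ≤ L, G.dist (w.getVert k) z ≤ ρ).card * ρ
      = ∑ _z ∈ Z.filter (fun z => ∃ k ≤ L, G.dist (w.getVert k) z ≤ ρ), ρ := by
        rw [sum_const, smul_eq_mul]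
    _ ≤ ∑ z ∈ Z.filter (fun z => ∃ k ≤ L, G.dist (w.getVert k) z ≤ ρ),
        ((range (L + 1)).filter fun k => G.dist (w.getVert k) z ≤ 2 * ρ).card := by
        refine sum_le_sum fun z hz => ?_
        rw [mem_filter] at hz
        obtain ⟨-, k, hk, hd⟩ := hz
        by_cases hkρ : ρ ≤ k
        · have h1 : Icc (k - ρ) k ⊆
              (range (L + 1)).filter fun k => G.dist (w.getVert k) z ≤ 2 * ρ := by
            intro i hi
            rw [mem_Icc] at hi
            rw [mem_filter, mem_range]
            refine ⟨by omega, ?_⟩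
            have h2 := dist_getVert_le hconn w i k hi.2
            have h3 := hconn.dist_triangle (u := w.getVert i) (v := w.getVert k) (w := z)
            omega
          have := card_le_card h1
          rw [Nat.card_Icc] at this
          omega
        · have h1 : Icc k (k + ρ) ⊆
              (range (L + 1)).filter fun k => G.dist (w.getVert k) z ≤ 2 * ρ := by
            intro i hi
            rw [mem_Icc] at hi
            rw [mem_filter, mem_range]
            refine ⟨by omega, ?_⟩
            have h2 := dist_getVert_le hconn w k i hi.1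
            have h3 := hconn.dist_triangle (u := w.getVert i) (v := w.getVert k) (w := z)
            rw [SimpleGraph.dist_comm (u := w.getVert i) (v := w.getVert k)] at h3
            omega
          have := card_le_card h1
          rw [Nat.card_Icc] at this
          omega
    _ ≤ ∑ z ∈ Z, ((range (L + 1)).filter fun k => G.dist (w.getVert k) z ≤ 2 * ρ).card :=
        sum_le_sum_of_subset (filter_subset _ _)
    _ = _ := by
        simp only [card_filter]
        exact sum_comm

end Pool.Agent.Helper30.PGT
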