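import Pool.Agent.Helper30.PGT.Double
import Pool.Agent.Helper30.PGT.Choose

/-! One turn of Maker, with explicit numerical hypotheses. -/

namespace Pool.Agent.Helper30.PGT

open Finset Pool.Agent.Helper30.Perc Pool.Agent.Helper22.PG

variable {V : Type} [DecidableEq V] {G : SimpleGraph V} [G.LocallyFinite] {d K C : ℕ} {v : ℕ → ℕ}

/-- Maker is live at `y` -/
def AtD (G : SimpleGraph V) [G.LocallyFinite] (v : ℕ → ℕ) (v₀ : V) (H p : ℕ)
    (M B : Finset (Sym2 V)) (y : V) : Prop :=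
  ∃ N : Finset V, N ⊆ bl G y (2 * (p / H)) ∧ 3 * v (p / H) ≤ 4 * N.card ∧
    ∀ x ∈ N, Rch G v₀ M B (5 * (p / H)) x

/-- edges of a walk between two times -/
def seg {y z : V} (w : G.Walk y z) (i L : ℕ) : Finset (Sym2 V) :=
  (Ico i L).image fun k => s(w.getVert k, w.getVert (k + 1))

omit [G.LocallyFinite] in
lemma mem_seg {y z : V} (w : G.Walk y z) (i L : ℕ) (e : Sym2 V) :
    e ∈ seg w i L ↔ ∃ k, i ≤ k ∧ k < L ∧ e = s(w.getVert k, w.getVert (k + 1)) := by
  simp only [seg, mem_image, mem_Ico]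
  constructor
  · rintro ⟨k, ⟨h1, h2⟩, rfl⟩
    exact ⟨k, h1, h2, rfl⟩
  · rintro ⟨k, h1, h2, rfl⟩
    exact ⟨k, ⟨h1, h2⟩, rfl⟩

omit [G.LocallyFinite] in
lemma seg_reach {y z : V} (w : G.Walk y z) (i L : ℕ) (hL : L ≤ w.length) (M : Finset (Sym2 V))
    (hM : seg w i L ⊆ M) : ∀ k, i ≤ k → k ≤ L →
      (SimpleGraph.fromEdgeSet (M : Set (Sym2 V))).Reachable (w.getVert i) (w.getVert k) := by
  intro k hk
  induction k, hk using Nat.le_induction with
  | base => intro _; exact SimpleGraph.Reachable.refl _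
  | succ k hk ih =>
    intro hk'
    refine (ih (by omega)).trans (SimpleGraph.Adj.reachable ?_)
    rw [fes_adj]
    refine ⟨hM ?_, (w.adj_getVert_succ (by omega)).ne⟩
    rw [mem_seg]
    exact ⟨k, hk, by omega, rfl⟩

omit [DecidableEq V] [G.LocallyFinite] in
lemma vert_union' [DecidableEq V] (A B : Finset (Sym2 V)) : vert (A ∪ B) = vert A ∪ vert B := by
  ext x
  simp only [mem_vert, mem_union]
  constructor
  · rintro ⟨e, h1 | h1, h2⟩
    · exact Or.inl ⟨e, h1, h2⟩
    · exact Or.inr ⟨e, h1, h2⟩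
  · rintro (⟨e, h1, h2⟩ | ⟨e, h1, h2⟩)
    · exact ⟨e, Or.inl h1, h2⟩
    · exact ⟨e, Or.inr h1, h2⟩

/-- After the last path has been claimed and Breaker has answered, Maker can spread to a large
ball close to the second part of the path. -/
theorem after_reply (hP : PolyG G d K C v) (hgeo : GeoProp G v) (v₀ y y1 y2 : V)
    (M' B Y : Finset (Sym2 V)) (w : G.Walk y1 y2)
    (h m ℓ i0 R C' q E' J g r0 f ρ A p : ℕ) (Eb : ℕ → Finset (Sym2 V))
    (hLw : m * ℓ ≤ w.length) (hi0 : i0 ≤ m)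
    (hEbR : ∀ j < m, ∀ e ∈ Eb j, ∀ u ∈ e, G.dist (w.getVert (j * ℓ)) u ≤ R)
    (hcapS : ∀ W : Finset V, (∀ k, i0 * ℓ ≤ k → k ≤ m * ℓ → w.getVert k ∈ W) →
        (∀ j, i0 ≤ j → j < m → ∀ a b, s(a, b) ∈ Eb j → a ∈ W → b ∈ W) →
        (m - i0) * C' ≤ cut G W)
    (hsegM : seg w 0 (m * ℓ) ⊆ M') (hEbM : ∀ j < m, Eb j ⊆ M')
    (hreach : (SimpleGraph.fromEdgeSet (M' : Set (Sym2 V))).Reachable v₀ y1)
    (hYq : Y.card = q)
    (Zn : Finset V) (hZn : ∀ u ∈ vert B, (∃ k ≤ m * ℓ, G.dist (w.getVert k) u ≤ ρ) → u ∈ Zn)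
    (hZnE : Zn.card ≤ E')
    (hρ : R + J + r0 ≤ ρ) (hd0 : 0 < d) (hJg : 0 < J * g)
    (hn6 : q + d * E' + d * g ≤ (m - i0) * C')
    (hn9 : 4 * (E' + 2 * q) * (r0 + 1) ≤ J * g)
    (hA : (vert (B ∪ Y) ∩ bl G y (8 * p)).card ≤ A)
    (hn10 : ∀ r, r0 ≤ r → 16 * A * (2 * r + 1) ≤ 3 * v r)
    (hf1 : h ≤ 2 ^ f * r0) (hf2 : 2 ^ f * r0 ≤ 2 * h)
    (hJh : R + J + r0 ≤ h) (hy1 : G.dist y y1 ≤ 2 * h) (hbig : 8 * h + m * ℓ ≤ 8 * p) :
    ∃ k x', i0 * ℓ ≤ k ∧ k ≤ m * ℓ ∧ G.dist (w.getVert k) x' ≤ 3 * h ∧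
      ∃ N : Finset V, N ⊆ bl G x' (2 * h) ∧ 3 * v h ≤ 4 * N.card ∧
        ∀ x ∈ N, Rch G v₀ M' (B ∪ Y) (5 * h) x := by
  classical
  have hconn := hP.conn
  set L := m * ℓ with hL
  set o := w.getVert L with ho
  set M2 : Finset (Sym2 V) := seg w (i0 * ℓ) L ∪ (Ico i0 m).biUnion Eb with hM2
  have hi0L : i0 * ℓ ≤ L := Nat.mul_le_mul_right _ hi0
  have hM2M : M2 ⊆ M' := by
    rw [hM2]
    refine union_subset ?_ ?_
    · refine Subset.trans ?_ hsegM
      intro e he
      rw [mem_seg] at he ⊢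
      obtain ⟨k, h1, h2, h3⟩ := he
      exact ⟨k, Nat.zero_le _, h2, h3⟩
    · intro e he
      rw [mem_biUnion] at he
      obtain ⟨j, hj, he⟩ := he
      rw [mem_Ico] at hj
      exact hEbM j hj.2 he
  -- vertices of `M2` are near the path
  have hM2near : ∀ z ∈ insert o (vert M2), ∃ k, i0 * ℓ ≤ k ∧ k ≤ L ∧
      G.dist (w.getVert k) z ≤ R := by
    intro z hz
    rw [mem_insert] at hz
    rcases hz with rfl | hz
    · exact ⟨L, hi0L, le_rfl, by rw [ho]; simp⟩
    · rw [mem_vert] at hz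
      obtain ⟨e, he, hze⟩ := hz
      rw [hM2, mem_union] at he
      rcases he with he | he
      · rw [mem_seg] at he
        obtain ⟨k, h1, h2, rfl⟩ := he
        rw [Sym2.mem_iff] at hze
        rcases hze with rfl | rfl
        · exact ⟨k, h1, h2.le, by simp⟩
        · exact ⟨k + 1, by omega, h2, by simp⟩
      · rw [mem_biUnion] at he
        obtain ⟨j, hj, he⟩ := he
        rw [mem_Ico] at hj
        exact ⟨j * ℓ, Nat.mul_le_mul_right _ hj.1, Nat.mul_le_mul_right _ hj.2.le,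
          hEbR j hj.2 e he z hze⟩
  have hnear : ∀ j N, Lev' G o M2 (B ∪ Y) j N → ∀ x ∈ N, ∃ k, i0 * ℓ ≤ k ∧ k ≤ L ∧
      G.dist (w.getVert k) x ≤ R + j := by
    intro j N hN x hx
    obtain ⟨z, hz, hzx⟩ := hN.nr x hx
    obtain ⟨k, h1, h2, h3⟩ := hM2near z hz
    have t := hconn.dist_triangle (u := w.getVert k) (v := z) (w := x)
    exact ⟨k, h1, h2, by omega⟩
  -- growth
  have hgrow := growth' hconn d hP.deg o M2 (B ∪ Y) J g (by
    intro j hj N hN
    have hcut : (m - i0) * C' ≤ cut G N := by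
      refine hcapS N ?_ ?_
      · -- downward induction along the path
        have hdown : ∀ t, t ≤ L - i0 * ℓ → w.getVert (L - t) ∈ N := by
          intro t
          induction t with
          | zero => intro _; exact hN.lev.ho
          | succ t ih =>
            intro ht
            have h1 := ih (by omega)
            refine hN.lev.cl _ _ ?_ h1
            rw [hM2, mem_union, mem_seg]
            left
            refine ⟨L - (t + 1), by omega, by omega, ?_⟩
            rw [Sym2.eq_swap]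
            congr 2
            omega
        intro k hk1 hk2
        have := hdown (L - k) (by omega)
        rwa [show L - (L - k) = k by omega] at this
      · intro j hj1 hj2 a b hab ha
        refine hN.lev.cl a b ?_ ha
        rw [hM2, mem_union, mem_biUnion]
        right
        exact ⟨j, mem_Ico.2 ⟨hj1, hj2⟩, hab⟩
    have hB : (bdE G N ∩ (B ∪ Y)).card ≤ q + d * E' := by
      have h1 : bdE G N ∩ (B ∪ Y) ⊆
          Y ∪ Zn.biUnion fun a => (G.neighborFinset a).image fun b => s(a, b) := by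
        intro e he
        rw [mem_inter, mem_bdE, mem_union] at he
        obtain ⟨⟨a, ha, b, hb, hab, rfl⟩, he⟩ := he
        rw [mem_union]
        rcases he with he | he
        · right
          rw [mem_biUnion]
          refine ⟨a, ?_, ?_⟩
          · refine hZn a ?_ ?_
            · rw [mem_vert]; exact ⟨_, he, by simp⟩
            · obtain ⟨k, -, h2, h3⟩ := hnear j N hN a ha
              exact ⟨k, h2, by omega⟩
          · rw [mem_image]
            exact ⟨b, by simpa using hab, rfl⟩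
        · left; exact he
      refine (card_le_card h1).trans ((card_union_le _ _).trans ?_)
      rw [hYq]
      have h2 : (Zn.biUnion fun a => (G.neighborFinset a).image fun b => s(a, b)).card ≤
          Zn.card * d := by
        refine card_biUnion_le.trans ?_
        rw [← smul_eq_mul, ← sum_const]
        exact sum_le_sum fun a _ => card_image_le.trans (hP.deg a)
      have h3 : Zn.card * d ≤ E' * d := Nat.mul_le_mul_right _ hZnE
      rw [mul_comm d E']
      omega
    omega) hd0 J le_rfl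
  obtain ⟨NJ, hNJ, hNJc⟩ := hgrow
  have hNJne : NJ.Nonempty := card_pos.1 (by omega)
  -- `NJ` is reachable from `v₀`
  have hreacho : (SimpleGraph.fromEdgeSet (M' : Set (Sym2 V))).Reachable v₀ o := by
    refine hreach.trans ?_
    have := seg_reach w 0 L hLw M' hsegM L (Nat.zero_le _) le_rfl
    rwa [w.getVert_zero] at this
  have hNJr : ∀ x ∈ NJ, Rch G v₀ M' (B ∪ Y) J x := by
    intro x hx
    obtain ⟨P, hP1, hP2, hP3, hP4⟩ := hNJ.lev.re x hx
    refine ⟨P, hP1, hP2, hP3, ?_⟩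
    exact (reach_mono subset_union_left hreacho).trans
      (reach_mono (union_subset_union hM2M (Subset.refl P)) hP4)
  -- first expansion
  obtain ⟨x0, hx0, N1, hN1a, hN1b, hN1c⟩ := expand hP hgeo NJ hNJne r0 (vert (B ∪ Y))
    (Zn ∪ vert Y) (by
      intro x hx u hu hxu
      rw [vert_union', mem_union] at hu
      rw [mem_union]
      rcases hu with hu | hu
      · left
        refine hZn u hu ?_
        obtain ⟨k, -, h2, h3⟩ := hnear J NJ hNJ x hx
        have t := hconn.dist_triangle (u := w.getVert k) (v := x) (w := u)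
        exact ⟨k, h2, by omega⟩
      · right; exact hu)
    (by
      have h1 : (Zn ∪ vert Y).card ≤ E' + 2 * q := by
        refine (card_union_le _ _).trans ?_
        have := card_vert Y
        omega
      calc 4 * (Zn ∪ vert Y).card * (r0 + 1) ≤ 4 * (E' + 2 * q) * (r0 + 1) :=
            Nat.mul_le_mul_right _ (Nat.mul_le_mul_left _ h1)
        _ ≤ J * g := hn9
        _ ≤ NJ.card := hNJc)
  obtain ⟨k, hk1, hk2, hk3⟩ := hnear J NJ hNJ x0 hx0
  have hyk : G.dist y (w.getVert k) ≤ 2 * h + L := by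
    have t := hconn.dist_triangle (u := y) (v := y1) (w := w.getVert k)
    have t2 := dist_getVert_le hconn w 0 k (Nat.zero_le _)
    rw [w.getVert_zero] at t2
    omega
  have hyx0 : G.dist y x0 ≤ 3 * h + L := by
    have t := hconn.dist_triangle (u := y) (v := w.getVert k) (w := x0)
    omega
  have hN1r : ∀ z ∈ N1, Rch G v₀ M' (B ∪ Y) (J + r0) z := by
    intro z hz
    obtain ⟨u, hu1, hu2⟩ := hN1c z hz
    refine ((hNJr x0 hx0).walk u hu2).mono ?_
    have := (mem_bl hconn _ _ _).1 (hN1a hz)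
    omega
  -- doubling
  obtain ⟨x', N', h1, h2, h3, h4⟩ := doubling hP hgeo v₀ M' (B ∪ Y) y (8 * p) A r0 hA hn10
    (J + r0) x0 N1 hN1a hN1b hN1r f (by omega)
  refine ⟨k, x', hk1, hk2, ?_, N', ?_, ?_, ?_⟩
  · have t := hconn.dist_triangle (u := w.getVert k) (v := x0) (w := x')
    omega
  · exact h2.trans (bl_mono hconn _ hf2)
  · exact (Nat.mul_le_mul_left _ (hP.v_mono hf1)).trans h3
  · intro x hx
    exact (h4 x hx).mono (by omega)

end Pool.Agent.Helper30.PGT
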