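import Pool.Agent.Helper30.PGT.Expand
import Pool.Agent.Helper30.Perc.Place

/-! Repeated set expansion, and growth near the last path. -/

namespace Pool.Agent.Helper30.PGT

open Finset Pool.Agent.Helper30.Perc Pool.Agent.Helper22.PG

variable {V : Type} [DecidableEq V] {G : SimpleGraph V} [G.LocallyFinite] {d K C : ℕ} {v : ℕ → ℕ}

omit [DecidableEq V] [G.LocallyFinite] in
lemma Rch.mono {o : V} {M B : Finset (Sym2 V)} {b b' : ℕ} [DecidableEq V] {x : V}
    (h : Rch G o M B b x) (hb : b ≤ b') : Rch G o M B b' x := by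
  obtain ⟨P, h1, h2⟩ := h
  exact ⟨P, h1.trans hb, h2⟩

theorem doubling (hP : PolyG G d K C v) (hgeo : GeoProp G v) (o : V) (M B : Finset (Sym2 V))
    (Y : V) (ρ A r0 : ℕ) (hA : (vert B ∩ bl G Y ρ).card ≤ A)
    (hr0 : ∀ r, r0 ≤ r → 16 * A * (2 * r + 1) ≤ 3 * v r) (b : ℕ) (x : V) (N : Finset V)
    (hN1 : N ⊆ bl G x r0) (hN2 : 3 * v r0 ≤ 4 * N.card) (hN3 : ∀ z ∈ N, Rch G o M B b z) :
    ∀ f, G.dist Y x + 2 * (2 ^ f * r0) ≤ ρ → ∃ x' : V, ∃ N' : Finset V,
      G.dist x x' ≤ 2 ^ f * r0 ∧ N' ⊆ bl G x' (2 ^ f * r0) ∧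
      3 * v (2 ^ f * r0) ≤ 4 * N'.card ∧ ∀ z ∈ N', Rch G o M B (b + 2 * (2 ^ f * r0)) z := by
  intro f
  induction f with
  | zero =>
    intro _
    refine ⟨x, N, by simp, by simpa using hN1, by simpa using hN2, ?_⟩
    intro z hz
    exact (hN3 z hz).mono (by omega)
  | succ f ih =>
    intro hf
    have e2 : 2 ^ (f + 1) * r0 = 2 * (2 ^ f * r0) := by ring
    rw [e2] at hf ⊢
    obtain ⟨x', N', h1, h2, h3, h4⟩ := ih (by omega)
    set r := 2 ^ f * r0 with hr
    have hr0r : r0 ≤ r := Nat.le_mul_of_pos_left _ (by positivity)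
    have hne : N'.Nonempty := by
      rw [← card_pos]
      have := hP.v_pos r
      omega
    obtain ⟨y, hy, N'', h5, h6, h7⟩ := expand hP hgeo N' hne (2 * r) (vert B) (vert B ∩ bl G Y ρ)
      (by
        intro y hy o ho hd
        rw [mem_inter, mem_bl hP.conn]
        refine ⟨ho, ?_⟩
        have h8 := (mem_bl hP.conn _ _ _).1 (h2 hy)
        have t1 := hP.conn.dist_triangle (u := Y) (v := x) (w := o)
        have t2 := hP.conn.dist_triangle (u := x) (v := x') (w := o)
        have t3 := hP.conn.dist_triangle (u := x') (v := y) (w := o)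
        omega)
      (by
        have h8 := hr0 r hr0r
        have h9 : 4 * (vert B ∩ bl G Y ρ).card * (2 * r + 1) ≤ 4 * A * (2 * r + 1) :=
          Nat.mul_le_mul_right _ (Nat.mul_le_mul_left _ hA)
        nlinarith)
    refine ⟨y, N'', ?_, h5, h6, ?_⟩
    · have t1 := hP.conn.dist_triangle (u := x) (v := x') (w := y)
      have h8 := (mem_bl hP.conn _ _ _).1 (h2 hy)
      omega
    · intro z hz
      obtain ⟨w, hw1, hw2⟩ := h7 z hz
      refine ((h4 y hy).walk w hw2).mono ?_
      have h8 := (mem_bl hP.conn _ _ _).1 (h5 hz)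
      omega

/-- as `Lev`, with a bound for the distance to the vertices of `M` -/
structure Lev' (G : SimpleGraph V) (o : V) (M B : Finset (Sym2 V)) (j : ℕ) (N : Finset V) :
    Prop where
  lev : Lev G o M B j N
  nr : ∀ x ∈ N, ∃ z ∈ insert o (vert M), G.dist z x ≤ j

lemma lev'_zero (o : V) (M B : Finset (Sym2 V)) : ∃ N, Lev' G o M B 0 N := by
  obtain ⟨N, h1, h2, h3⟩ := exists_clos M {o}
  have key : ∀ x ∈ N, (SimpleGraph.fromEdgeSet (M : Set (Sym2 V))).Reachable o x := by
    intro x hx
    obtain ⟨a, ha, hax⟩ := h3 x hx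
    rw [mem_singleton] at ha
    subst ha
    exact hax
  refine ⟨N, ⟨h1 (mem_singleton_self o), h2, ?_⟩, ?_⟩
  · intro x hx
    refine ⟨∅, by simp, by simp, by simp, ?_⟩
    simpa using key x hx
  · intro x hx
    refine ⟨x, ?_, by simp⟩
    rw [mem_insert]
    exact reach_vert M o x (key x hx)

lemma lev'_succ (hconn : G.Connected) (d : ℕ) (hd : ∀ v, (G.neighborFinset v).card ≤ d) {o : V}
    {M B : Finset (Sym2 V)} {j : ℕ} {N : Finset V} (h : Lev' G o M B j N) :
    ∃ N', Lev' G o M B (j + 1) N' ∧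
      cut G N + d * N.card ≤ (bdE G N ∩ B).card + d * N'.card := by
  obtain ⟨N', h1, h2, h3⟩ := exists_clos M (N ∪ N.biUnion fun a =>
    (G.neighborFinset a).filter fun b => s(a, b) ∉ B)
  have hNN : N ⊆ N' := subset_union_left.trans h1
  refine ⟨N', ⟨⟨hNN h.lev.ho, h2, ?_⟩, ?_⟩, ?_⟩
  · intro x hx
    obtain ⟨a, ha, hax⟩ := h3 x hx
    rw [mem_union, mem_biUnion] at ha
    rcases ha with ha | ⟨c, hc, ha⟩
    · obtain ⟨P, hP1, hP2, hP3, hP4⟩ := h.lev.re a ha
      exact ⟨P, by omega, hP2, hP3, hP4.trans (reach_mono subset_union_left hax)⟩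
    · rw [mem_filter, SimpleGraph.mem_neighborFinset] at ha
      obtain ⟨P, hP1, hP2, hP3, hP4⟩ := h.lev.re c hc
      refine ⟨insert s(c, a) P, ?_, ?_, ?_, ?_⟩
      · exact (card_insert_le _ _).trans (by omega)
      · rw [coe_insert]
        exact Set.insert_subset (by simpa using ha.1) hP2
      · rw [disjoint_insert_left]
        exact ⟨ha.2, hP3⟩
      · refine (reach_mono ?_ hP4).trans ?_
        · exact union_subset_union (Subset.refl _) (subset_insert _ _)
        · have h5 : (SimpleGraph.fromEdgeSet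
              ((M ∪ insert s(c, a) P : Finset (Sym2 V)) : Set (Sym2 V))).Reachable c a :=
            SimpleGraph.Adj.reachable ((fes_adj _ _ _).2 ⟨by simp, ha.1.ne⟩)
          exact h5.trans (reach_mono subset_union_left hax)
  · intro x hx
    obtain ⟨a, ha, hax⟩ := h3 x hx
    rcases reach_vert M a x hax with rfl | hv
    · rw [mem_union, mem_biUnion] at ha
      rcases ha with ha | ⟨c, hc, ha⟩
      · obtain ⟨z, hz1, hz2⟩ := h.nr x ha
        exact ⟨z, hz1, by omega⟩
      · rw [mem_filter, SimpleGraph.mem_neighborFinset] at ha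
        obtain ⟨z, hz1, hz2⟩ := h.nr c hc
        refine ⟨z, hz1, ?_⟩
        have t := hconn.dist_triangle (u := z) (v := c) (w := x)
        rw [SimpleGraph.dist_eq_one_iff_adj.2 ha.1] at t
        omega
    · exact ⟨x, mem_insert_of_mem hv, by simp⟩
  · have h4 : (bdE G N \ B).card ≤ (N' \ N).card * d := by
      calc (bdE G N \ B).card ≤ ((N' \ N).biUnion fun b =>
            (G.neighborFinset b).image fun a => s(a, b)).card := by
            refine card_le_card ?_
            intro e he
            rw [mem_sdiff, mem_bdE] at he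
            obtain ⟨⟨a, ha, b, hb, hab, rfl⟩, heB⟩ := he
            rw [mem_biUnion]
            refine ⟨b, ?_, ?_⟩
            · rw [mem_sdiff]
              refine ⟨h1 ?_, hb⟩
              rw [mem_union, mem_biUnion]
              refine Or.inr ⟨a, ha, ?_⟩
              rw [mem_filter]
              exact ⟨by simpa using hab, heB⟩
            · rw [mem_image]
              exact ⟨a, by simpa using hab.symm, rfl⟩
        _ ≤ ∑ b ∈ N' \ N, ((G.neighborFinset b).image fun a => s(a, b)).card := card_biUnion_le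
        _ ≤ ∑ _b ∈ N' \ N, d := sum_le_sum fun b _ => card_image_le.trans (hd b)
        _ = _ := by rw [sum_const, smul_eq_mul]
    have h5 : (bdE G N).card = (bdE G N \ B).card + (bdE G N ∩ B).card := by
      rw [card_sdiff_add_card_inter]
    rw [card_bdE] at h5
    have h6 : (N' \ N).card + N.card = N'.card := by
      rw [card_sdiff_add_card_eq_card hNN]
    have h7 : d * N'.card = (N' \ N).card * d + d * N.card := by rw [← h6]; ring
    omega

/-- growth as long as the boundary is larger than the number of Breaker's edges nearby -/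
theorem growth' (hconn : G.Connected) (d : ℕ) (hd : ∀ v, (G.neighborFinset v).card ≤ d) (o : V)
    (M B : Finset (Sym2 V)) (J g : ℕ)
    (hcap : ∀ j < J, ∀ N : Finset V, Lev' G o M B j N →
      (bdE G N ∩ B).card + d * g ≤ cut G N) (hd0 : 0 < d) :
    ∀ j ≤ J, ∃ N, Lev' G o M B j N ∧ j * g ≤ N.card := by
  intro j
  induction j with
  | zero =>
    intro _
    obtain ⟨N, hN⟩ := lev'_zero (G := G) o M B
    exact ⟨N, hN, by simp⟩
  | succ j ih =>
    intro hj
    obtain ⟨N, hN, hNc⟩ := ih (by omega)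
    obtain ⟨N', hN', hc⟩ := lev'_succ hconn d hd hN
    refine ⟨N', hN', ?_⟩
    have h1 := hcap j (by omega) N hN
    have h2 : d * (g + N.card) ≤ d * N'.card := by rw [mul_add]; omega
    have h3 : g + N.card ≤ N'.card := Nat.le_of_mul_le_mul_left h2 hd0
    rw [add_mul, one_mul]
    omega

end Pool.Agent.Helper30.PGT
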