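import Pool.Agent.Helper22.PG.Basic

/-! Set expansion along geodesics (module D of the polynomial growth theorem). -/

namespace Pool.Agent.Helper30.PGT

open Finset Pool.Agent.Helper30.Perc Pool.Agent.Helper22.PG

variable {V : Type} [DecidableEq V] {G : SimpleGraph V} [G.LocallyFinite] {d K C : ℕ} {v : ℕ → ℕ}

/-- the statement of the theorem on random geodesics -/
def GeoProp (G : SimpleGraph V) (v : ℕ → ℕ) : Prop :=
  ∀ (r : ℕ) (Kx : Finset ℕ) (c : V → ℝ), (∀ x, 0 ≤ c x) → ∀ X : Finset V,
    (∀ x, x ∉ X → c x = 0) → ∀ P : Finset (V × V), (∀ z ∈ P, G.dist z.1 z.2 ≤ r) → ∀ t : ℝ,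
    (∀ z ∈ P, ∀ w : G.Walk z.1 z.2, w.length = G.dist z.1 z.2 →
      t ≤ ∑ k ∈ Kx, c (w.getVert k)) →
    (P.card : ℝ) * t ≤ Kx.card * v r * ∑ x ∈ X, c x

/-- one-sided set expansion: if there are few obstacles near `N`, then some vertex of `N` sees
three quarters of its ball of radius `r` along geodesics without obstacles -/
theorem expand (hP : PolyG G d K C v) (hgeo : GeoProp G v) (N : Finset V) (hN : N.Nonempty)
    (r : ℕ) (O : Finset V) (On : Finset V) (hOn : ∀ y ∈ N, ∀ o ∈ O, G.dist y o ≤ r → o ∈ On)
    (h : 4 * On.card * (r + 1) ≤ N.card) :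
    ∃ y ∈ N, ∃ N' : Finset V, N' ⊆ bl G y r ∧ 3 * v r ≤ 4 * N'.card ∧
      ∀ z ∈ N', ∃ w : G.Walk y z, w.length = G.dist y z ∧ ∀ k, w.getVert k ∉ O := by
  classical
  by_contra hcon
  push Not at hcon
  set good : V → Finset V := fun y => (bl G y r).filter fun z =>
    ∃ w : G.Walk y z, w.length = G.dist y z ∧ ∀ k, w.getVert k ∉ O with hgood
  set bad : V → Finset V := fun y => bl G y r \ good y with hbad
  have hb : ∀ y ∈ N, v r < 4 * (bad y).card := by
    intro y hy
    have h1 : 4 * (good y).card < 3 * v r := by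
      by_contra hc
      obtain ⟨z, hz, hz'⟩ := hcon y hy (good y) (filter_subset _ _) (by omega)
      rw [hgood, mem_filter] at hz
      obtain ⟨w, hw1, hw2⟩ := hz.2
      obtain ⟨k, hk⟩ := hz' w hw1
      exact hw2 k hk
    have h2 : (bad y).card + (good y).card = (bl G y r).card := by
      rw [hbad]
      exact card_sdiff_add_card_eq_card (filter_subset _ _)
    rw [hP.vol] at h2
    omega
  set P : Finset (V × V) := N.biUnion fun y => (bad y).image fun z => (y, z) with hPdef
  have hPcard : P.card = ∑ y ∈ N, (bad y).card := by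
    rw [hPdef, card_biUnion]
    · refine sum_congr rfl fun y _ => ?_
      rw [card_image_of_injective]
      intro a b hab
      exact (Prod.mk.inj hab).2
    · intro a _ b _ hne
      rw [Function.onFun, disjoint_left]
      intro z hz hz'
      rw [mem_image] at hz hz'
      obtain ⟨u, -, rfl⟩ := hz
      obtain ⟨u', -, hu'⟩ := hz'
      exact hne (Prod.mk.inj hu').1.symm
  have hlow : N.card * v r < 4 * P.card := by
    rw [hPcard, mul_sum, ← smul_eq_mul, ← sum_const]
    exact sum_lt_sum_of_nonempty hN hb
  have hup := hgeo r (range (r + 1)) (fun x => if x ∈ On then 1 else 0)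
    (fun x => by split_ifs <;> norm_num) On (fun x hx => by simp [hx]) P ?_ 1 ?_
  · rw [mul_one, card_range] at hup
    simp only [sum_ite_mem, inter_self, sum_const, nsmul_eq_mul, mul_one] at hup
    have h1 : P.card ≤ (r + 1) * v r * On.card := by exact_mod_cast hup
    have h2 : (4 * On.card * (r + 1)) * v r ≤ N.card * v r := Nat.mul_le_mul_right _ h
    nlinarith
  · intro z hz
    rw [hPdef, mem_biUnion] at hz
    obtain ⟨y, hy, hz⟩ := hz
    rw [mem_image] at hz
    obtain ⟨u, hu, rfl⟩ := hz
    rw [hbad, mem_sdiff] at hu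
    exact (mem_bl hP.conn _ _ _).1 hu.1
  · intro z hz w hw
    rw [hPdef, mem_biUnion] at hz
    obtain ⟨y, hy, hz⟩ := hz
    rw [mem_image] at hz
    obtain ⟨u, hu, rfl⟩ := hz
    rw [hbad, mem_sdiff, hgood, mem_filter, not_and] at hu
    obtain ⟨hu1, hu2⟩ := hu
    have hu3 := hu2 hu1
    push Not at hu3
    obtain ⟨k, hk⟩ := hu3 w hw
    rw [mem_bl hP.conn] at hu1
    have hwl : w.length ≤ r := by rw [hw]; exact hu1
    obtain ⟨k', hk', hkk⟩ : ∃ k', k' ≤ w.length ∧ w.getVert k' = w.getVert k := by
      by_cases hkl : k ≤ w.length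
      · exact ⟨k, hkl, rfl⟩
      · refine ⟨w.length, le_rfl, ?_⟩
        rw [w.getVert_of_length_le (by omega : w.length ≤ k), w.getVert_length]
    have hmem : w.getVert k' ∈ On := by
      refine hOn y hy _ (hkk ▸ hk) ?_
      have h1 := dist_getVert_le hP.conn w 0 k' (Nat.zero_le _)
      rw [w.getVert_zero] at h1
      simp only at h1 ⊢
      omega
    calc (1 : ℝ) = if w.getVert k' ∈ On then 1 else 0 := by rw [if_pos hmem]
      _ ≤ _ := single_le_sum (f := fun k => if w.getVert k ∈ On then (1 : ℝ) else 0)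
        (fun i _ => by split_ifs <;> norm_num) (mem_range.2 (by omega))

/-- `x` can be reached from `o` with at most `b` new edges besides those of `M`, avoiding `B` -/
def Rch (G : SimpleGraph V) (o : V) (M B : Finset (Sym2 V)) (b : ℕ) (x : V) : Prop :=
  ∃ P : Finset (Sym2 V), P.card ≤ b ∧ (P : Set (Sym2 V)) ⊆ G.edgeSet ∧ Disjoint P B ∧
    (SimpleGraph.fromEdgeSet ((M ∪ P : Finset (Sym2 V)) : Set (Sym2 V))).Reachable o x

omit [G.LocallyFinite] in
/-- prolongation along a walk without obstacles -/
lemma Rch.walk {o : V} {M B : Finset (Sym2 V)} {b : ℕ} {x z : V} (h : Rch G o M B b x)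
    (w : G.Walk x z) (hw : ∀ k, w.getVert k ∉ vert B) : Rch G o M B (b + w.length) z := by
  classical
  obtain ⟨P, hP1, hP2, hP3, hP4⟩ := h
  refine ⟨P ∪ w.edges.toFinset, ?_, ?_, ?_, ?_⟩
  · refine (card_union_le _ _).trans ?_
    have h1 : w.edges.toFinset.card ≤ w.length := by
      refine (List.toFinset_card_le _).trans ?_
      rw [w.length_edges]
    omega
  · rw [coe_union]
    refine Set.union_subset hP2 ?_
    intro e he
    rw [mem_coe, List.mem_toFinset] at he
    exact w.edges_subset_edgeSet he
  · rw [disjoint_union_left]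
    refine ⟨hP3, ?_⟩
    rw [disjoint_left]
    intro e he heB
    rw [List.mem_toFinset] at he
    induction e with
    | _ a c =>
      have ha : a ∈ w.support := w.fst_mem_support_of_mem_edges he
      rw [SimpleGraph.Walk.mem_support_iff_exists_getVert] at ha
      obtain ⟨k, hk, -⟩ := ha
      refine hw k ?_
      rw [hk, mem_vert]
      exact ⟨_, heB, by simp⟩
  · refine (reach_mono (union_subset_union (Subset.refl M) subset_union_left) hP4).trans ?_
    have hwr : ∀ (a c : V) (u : G.Walk a c), u.edges.toFinset ⊆ w.edges.toFinset →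
        (SimpleGraph.fromEdgeSet ((M ∪ (P ∪ w.edges.toFinset) : Finset (Sym2 V)) :
          Set (Sym2 V))).Reachable a c := by
      intro a c u
      induction u with
      | nil => intro _; exact SimpleGraph.Reachable.refl _
      | cons hadj u ih =>
        intro hsub
        rename_i a' b' c'
        refine (SimpleGraph.Adj.reachable ?_).trans (ih ?_)
        · rw [fes_adj]
          refine ⟨?_, hadj.ne⟩
          rw [mem_union, mem_union]
          refine Or.inr (Or.inr (hsub ?_))
          rw [List.mem_toFinset, SimpleGraph.Walk.edges_cons]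
          exact List.mem_cons_self
        · intro e he
          apply hsub
          rw [List.mem_toFinset] at he ⊢
          rw [SimpleGraph.Walk.edges_cons]
          exact List.mem_cons_of_mem _ he
    exact hwr _ _ w (Subset.refl _)

end Pool.Agent.Helper30.PGT
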