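import Pool.Agent.Helper30.PGT.Core

/-! Maker's move. -/

namespace Pool.Agent.Helper30.PGT

open Finset Pool.Agent.Helper30.Perc Pool.Agent.Helper22.PG

variable {V : Type} [DecidableEq V] {G : SimpleGraph V} [G.LocallyFinite] {d K C : ℕ} {v : ℕ → ℕ}

omit [G.LocallyFinite] in
lemma card_seg {y z : V} (w : G.Walk y z) (i L : ℕ) : (seg w i L).card ≤ L - i := by
  unfold seg
  refine card_image_le.trans ?_
  rw [Nat.card_Ico]

omit [G.LocallyFinite] in
lemma seg_subset {y z : V} (w : G.Walk y z) (i L : ℕ) (hL : L ≤ w.length) :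
    (seg w i L : Set (Sym2 V)) ⊆ G.edgeSet := by
  intro e he
  rw [mem_coe, mem_seg] at he
  obtain ⟨k, h1, h2, rfl⟩ := he
  exact w.adj_getVert_succ (by omega)

theorem turn_core (hP : PolyG G d K C v) (hgeo : GeoProp G v) (v₀ y a : V)
    (M B : Finset (Sym2 V)) (ℓ s R C' H m i0 q E' J g r0 f ρ A p Λp T : ℕ)
    (hS : StaticHyp G ℓ s R C') (hd0 : 0 < d) (hρ0 : 0 < ρ)
    (hcl : (vert (M ∪ B) ∩ bl G y (8 * p)).card ≤ Λp)
    (hya1 : p ≤ 8 * G.dist y a) (hya2 : G.dist y a ≤ 4 * p)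
    (hAt : AtD G v v₀ H p M B y)
    (hms : m * s + 5 * (p / H) ≤ p) (hm0 : 0 < m) (hi0 : i0 ≤ m)
    (hH : 384 * (p / H) ≤ p) (hh0 : 0 < p / H)
    (hcount : ((m * ℓ + 1 : ℕ) : ℝ) * v (5 * p) *
      (Λp * (v R + v (2 * ρ) / (((E' + 1) * ρ : ℕ) : ℝ))) < 3 / 4 * (v (p / H) : ℝ) * v (p / H))
    (hρL : 2 * ρ ≤ m * ℓ)
    (hρ : R + J + r0 ≤ ρ) (hJg : 0 < J * g)
    (hn6 : q + d * E' + d * g ≤ (m - i0) * C')
    (hn9 : 4 * (E' + 2 * q) * (r0 + 1) ≤ J * g)
    (hA : Λp + 2 * q ≤ A)
    (hn10 : ∀ r, r0 ≤ r → 16 * A * (2 * r + 1) ≤ 3 * v r)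
    (hf1 : p / H ≤ 2 ^ f * r0) (hf2 : 2 ^ f * r0 ≤ 2 * (p / H))
    (hJh : R + J + r0 ≤ p / H) (hT : p + T * (7 * (p / H)) ≤ T * (i0 * ℓ)) :
    Step G v₀ p q M B fun M' B' => ∃ y', AtD G v v₀ H p M' B' y' ∧
      T * G.dist y' a + p ≤ T * G.dist y a ∧ 16 * G.dist y y' ≤ p := by
  classical
  have hconn := hP.conn
  obtain ⟨hℓ0, hℓs, hSt⟩ := hS
  obtain ⟨N, hN1, hN2, hN3⟩ := hAt
  set h := p / H with hh
  set Z := vert (M ∪ B) ∩ bl G y (8 * p) with hZ
  have hLp : 64 * (m * ℓ) ≤ p := by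
    have : m * (64 * ℓ) ≤ m * s := Nat.mul_le_mul_left _ hℓs
    have e : m * (64 * ℓ) = 64 * (m * ℓ) := by ring
    omega
  have hE0 : (0 : ℝ) < (((E' + 1) * ρ : ℕ) : ℝ) := by
    have : 0 < (E' + 1) * ρ := Nat.mul_pos (by omega) hρ0
    exact_mod_cast this
  obtain ⟨y1, hy1, y2, hy2, w, hw, hfree, hsum⟩ := choose_path hP hgeo y a N Z h p (m * ℓ) R ρ
    (((E' + 1) * ρ : ℕ) : ℝ) hE0 hN1 (by omega) hya2 (by
      have h1 : (3 / 4 : ℝ) * v h ≤ N.card := by
        have : (3 * v h : ℝ) ≤ 4 * N.card := by exact_mod_cast hN2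
        linarith
      have h2 : (3 / 4 : ℝ) * v h * v h ≤ N.card * v h :=
        mul_le_mul_of_nonneg_right h1 (Nat.cast_nonneg _)
      have h3 : (Z.card : ℝ) ≤ Λp := by exact_mod_cast hcl
      have h4 : (0 : ℝ) ≤ (v R : ℝ) + v (2 * ρ) / (((E' + 1) * ρ : ℕ) : ℝ) := by positivity
      have h5 := mul_le_mul_of_nonneg_right h3 h4
      have h6 : (0 : ℝ) ≤ ((m * ℓ + 1 : ℕ) : ℝ) * v (5 * p) := by positivity
      have h7 := mul_le_mul_of_nonneg_left h5 h6
      linarith)
  have hyy1 := (mem_bl hconn _ _ _).1 (hN1 hy1)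
  -- length of the geodesic
  have hlen : m * ℓ ≤ w.length := by
    rw [hw]
    have t1 := hconn.dist_triangle (u := y) (v := y1) (w := a)
    have t2 := hconn.dist_triangle (u := y1) (v := y2) (w := a)
    rw [SimpleGraph.dist_comm (u := y2)] at t2
    omega
  obtain ⟨Eb, hEb1, hEb2⟩ := hSt y1 y2 w hw m hlen
  -- vertices near the path are not claimed
  have hyk : ∀ k ≤ m * ℓ, G.dist y (w.getVert k) ≤ 2 * h + m * ℓ := by
    intro k hk
    have t := hconn.dist_triangle (u := y) (v := y1) (w := w.getVert k)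
    have t2 := dist_getVert_le hconn w 0 k (Nat.zero_le _)
    rw [w.getVert_zero] at t2
    omega
  have hncl : ∀ k ≤ m * ℓ, ∀ u, G.dist (w.getVert k) u ≤ R → u ∉ vert (M ∪ B) := by
    intro k hk u hu hmem
    have h1 : u ∈ Z := by
      rw [hZ, mem_inter, mem_bl hconn]
      refine ⟨hmem, ?_⟩
      have t := hconn.dist_triangle (u := y) (v := w.getVert k) (w := u)
      have := hyk k hk
      omega
    have := hfree k hk u h1
    omega
  obtain ⟨P1, hP1a, hP1b, hP1c, hP1d⟩ := hN3 y1 hy1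
  set S0 := seg w 0 (m * ℓ) with hS0
  set EB := (range m).biUnion Eb with hEB
  set X0 := (P1 \ M) ∪ (S0 ∪ EB) with hX0
  have hX0E : (X0 : Set (Sym2 V)) ⊆ G.edgeSet := by
    intro e he
    rw [mem_coe, hX0, mem_union, mem_union] at he
    rcases he with he | he | he
    · exact hP1b (mem_coe.2 (mem_sdiff.1 he).1)
    · exact seg_subset w 0 (m * ℓ) hlen (mem_coe.2 he)
    · rw [hEB, mem_biUnion] at he
      obtain ⟨j, hj, he⟩ := he
      exact (hEb1 j (mem_range.1 hj)).1 (mem_coe.2 he)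
  have hX0d : Disjoint X0 (M ∪ B) := by
    rw [disjoint_left]
    intro e he hmem
    rw [hX0, mem_union, mem_union] at he
    rcases he with he | he | he
    · rw [mem_sdiff] at he
      rw [mem_union] at hmem
      rcases hmem with h1 | h1
      · exact he.2 h1
      · exact disjoint_left.1 hP1c he.1 h1
    · rw [hS0, mem_seg] at he
      obtain ⟨k, h1, h2, rfl⟩ := he
      refine hncl k h2.le (w.getVert k) (by simp) ?_
      rw [mem_vert]
      exact ⟨_, hmem, by simp⟩
    · rw [hEB, mem_biUnion] at he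
      obtain ⟨j, hj, he⟩ := he
      rw [mem_range] at hj
      induction e with
      | _ b c =>
        refine hncl (j * ℓ) (Nat.mul_le_mul_right _ hj.le) b
          ((hEb1 j hj).2.2 _ he b (by simp)) ?_
        rw [mem_vert]
        exact ⟨_, hmem, by simp⟩
  have hX0c : X0.card ≤ p := by
    have h1 : (P1 \ M).card ≤ 5 * h := (card_le_card sdiff_subset).trans hP1a
    have h2 : S0.card ≤ m * ℓ := by
      have := card_seg w 0 (m * ℓ)
      omega
    have h3 : EB.card + m * ℓ ≤ m * s := by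
      have h4 : EB.card ≤ ∑ j ∈ range m, (Eb j).card := card_biUnion_le
      have h5 : ∑ j ∈ range m, ((Eb j).card + ℓ) ≤ ∑ _j ∈ range m, s :=
        sum_le_sum fun j hj => (hEb1 j (mem_range.1 hj)).2.1
      rw [sum_add_distrib, sum_const, sum_const, card_range, smul_eq_mul, smul_eq_mul] at h5
      omega
    have h4 := card_union_le (P1 \ M) (S0 ∪ EB)
    have h5 := card_union_le S0 EB
    rw [hX0]
    omega
  obtain ⟨X, hX1, hX2, hX3, hX4⟩ := exists_move hP.edge_infinite X0 (M ∪ B) p hX0E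
    (by exact_mod_cast hX0d) hX0c
  have hX4' : Disjoint X (M ∪ B) := by exact_mod_cast hX4
  have hXsub : M ∪ X0 ⊆ M ∪ X := union_subset_union (Subset.refl M) hX1
  have hS0X : S0 ⊆ M ∪ X := by
    intro e he
    apply hXsub
    rw [mem_union, hX0, mem_union, mem_union]
    exact Or.inr (Or.inr (Or.inl he))
  have hy1r : (SimpleGraph.fromEdgeSet ((M ∪ X : Finset (Sym2 V)) : Set (Sym2 V))).Reachable
      v₀ y1 := by
    refine reach_mono ?_ hP1d
    intro e he
    apply hXsub
    rw [mem_union] at he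
    rw [mem_union, hX0, mem_union, mem_sdiff]
    by_cases hM : e ∈ M
    · exact Or.inl hM
    · rcases he with he | he
      · exact absurd he hM
      · exact Or.inr (Or.inl ⟨he, hM⟩)
  refine ⟨X, hX2, hX3, hX4', ?_, ?_⟩
  · have h1 : 0 < m * ℓ := Nat.mul_pos hm0 hℓ0
    refine ⟨s(w.getVert 0, w.getVert (0 + 1)), ?_, y1, ?_, hy1r⟩
    · apply hX1
      rw [hX0, mem_union, mem_union, hS0, mem_seg]
      exact Or.inr (Or.inl ⟨0, le_rfl, h1, rfl⟩)
    · rw [w.getVert_zero]
      simp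
  · intro Y hY1 hY2 hY3
    set Zn := Z.filter fun z => ∃ k ≤ m * ℓ, G.dist (w.getVert k) z ≤ ρ with hZn
    have hZnE : Zn.card ≤ E' := by
      have h1 := near_count hconn w Z (m * ℓ) ρ hρL
      have h2 : ((Zn.card * ρ : ℕ) : ℝ) < (((E' + 1) * ρ : ℕ) : ℝ) := by
        refine lt_of_le_of_lt ?_ hsum
        exact_mod_cast h1
      have h3 : Zn.card * ρ < (E' + 1) * ρ := by exact_mod_cast h2
      have h4 := Nat.lt_of_mul_lt_mul_right h3
      omega
    obtain ⟨k, x', hk1, hk2, hk3, N', hN'1, hN'2, hN'3⟩ := after_reply hP hgeo v₀ y y1 y2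
      (M ∪ X) B Y w h m ℓ i0 R C' q E' J g r0 f ρ A p Eb hlen hi0
      (fun j hj e he u hu => (hEb1 j hj).2.2 e he u hu) (hEb2 i0 hi0) hS0X
      (by
        intro j hj e he
        apply hXsub
        rw [mem_union, hX0, mem_union, mem_union, hEB, mem_biUnion]
        exact Or.inr (Or.inr (Or.inr ⟨j, mem_range.2 hj, he⟩)))
      hy1r hY1 Zn (by
        rintro u hu ⟨k, hk, hku⟩
        rw [hZn, mem_filter, hZ, mem_inter, mem_bl hconn]
        refine ⟨⟨?_, ?_⟩, k, hk, hku⟩
        · rw [vert_union', mem_union]; exact Or.inr hu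
        · have t := hconn.dist_triangle (u := y) (v := w.getVert k) (w := u)
          have := hyk k hk
          omega) hZnE hρ hd0 hJg hn6 hn9 (by
        refine le_trans ?_ hA
        have h1 : vert (B ∪ Y) ∩ bl G y (8 * p) ⊆ Z ∪ vert Y := by
          intro u hu
          rw [mem_inter, vert_union', mem_union] at hu
          rw [mem_union, hZ, mem_inter, vert_union', mem_union]
          rcases hu with ⟨h1 | h1, h2⟩
          · exact Or.inl ⟨Or.inr h1, h2⟩
          · exact Or.inr h1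
        have h2 := card_le_card h1
        have h3 := card_union_le Z (vert Y)
        have h4 := card_vert Y
        omega) hn10 hf1 hf2 hJh hyy1 (by omega)
    refine ⟨x', ⟨N', hN'1, hN'2, hN'3⟩, ?_, ?_⟩
    · -- progress
      have t1 := hconn.dist_triangle (u := x') (v := w.getVert k) (w := a)
      have t2 := hconn.dist_triangle (u := w.getVert k) (v := y2) (w := a)
      have t3 := dist_getVert_le hconn w k w.length (by omega)
      rw [w.getVert_length] at t3
      have t4 := hconn.dist_triangle (u := y1) (v := y) (w := y2)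
      have t5 := hconn.dist_triangle (u := y) (v := a) (w := y2)
      rw [SimpleGraph.dist_comm (u := x') (v := w.getVert k)] at t1
      rw [SimpleGraph.dist_comm (u := y2) (v := a)] at t2
      rw [SimpleGraph.dist_comm (u := y1) (v := y)] at t4
      have h1 : G.dist x' a + i0 * ℓ ≤ G.dist y a + 7 * h := by omega
      have h2 : T * (G.dist x' a + i0 * ℓ) ≤ T * (G.dist y a + 7 * h) :=
        Nat.mul_le_mul_left _ h1
      rw [mul_add, mul_add] at h2
      omega
    · have t1 := hconn.dist_triangle (u := y) (v := w.getVert k) (w := x')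
      have := hyk k hk2
      omega

end Pool.Agent.Helper30.PGT
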