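import Pool.Agent.Helper30.PGT.Move

/-! Choice of the constants. -/

namespace Pool.Agent.Helper30.PGT

open Finset Pool.Agent.Helper30.Perc Pool.Agent.Helper22.PG

variable {V : Type} [DecidableEq V] {G : SimpleGraph V} [G.LocallyFinite] {d K C : ℕ} {v : ℕ → ℕ}

lemma cube_ratio (hP : PolyG G d K C v) (a h : ℕ) (ha : 0 < a) (hah : a ≤ h) :
    h ^ 3 * v a ≤ 8 * C * a ^ 3 * v h := by
  set k := Nat.log 2 (h / a) with hk
  have hne : h / a ≠ 0 := by
    have := Nat.div_pos hah ha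
    omega
  have h1 : 2 ^ k ≤ h / a := Nat.pow_log_le_self 2 hne
  have h2 : h / a < 2 ^ (k + 1) := Nat.lt_pow_succ_log_self (by norm_num) _
  have h3 : 2 ^ k * a ≤ h := (Nat.le_div_iff_mul_le ha).1 h1
  have h4 : h < 2 ^ (k + 1) * a := (Nat.div_lt_iff_lt_mul ha).1 h2
  have h5 : 8 ^ k * v a ≤ C * v h := (hP.gr k a ha).trans (Nat.mul_le_mul_left _ (hP.v_mono h3))
  have h6 : h ^ 3 ≤ (2 ^ (k + 1) * a) ^ 3 := Nat.pow_le_pow_left h4.le 3
  have h7 : (2 ^ (k + 1) * a) ^ 3 = 8 * a ^ 3 * 8 ^ k := by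
    rw [mul_pow, ← pow_mul, mul_comm (k + 1) 3, pow_mul]
    norm_num [pow_succ]
    ring
  calc h ^ 3 * v a ≤ 8 * a ^ 3 * 8 ^ k * v a := Nat.mul_le_mul_right _ (h6.trans_eq h7)
    _ = 8 * a ^ 3 * (8 ^ k * v a) := by ring
    _ ≤ 8 * a ^ 3 * (C * v h) := Nat.mul_le_mul_left _ h5
    _ = _ := by ring

lemma exists_pow_between (r0 h : ℕ) (hr : 0 < r0) (hrh : r0 ≤ h) :
    ∃ f, h ≤ 2 ^ f * r0 ∧ 2 ^ f * r0 ≤ 2 * h := by
  have hex : ∃ f, h ≤ 2 ^ f * r0 :=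
    ⟨h, (Nat.lt_two_pow_self (n := h)).le.trans (Nat.le_mul_of_pos_right _ hr)⟩
  classical
  refine ⟨Nat.find hex, Nat.find_spec hex, ?_⟩
  rcases Nat.eq_zero_or_pos (Nat.find hex) with h0 | h0
  · rw [h0]; simp; omega
  · have h1 := Nat.find_min hex (Nat.sub_lt h0 one_pos)
    push Not at h1
    have h2 : 2 ^ Nat.find hex * r0 = 2 * (2 ^ (Nat.find hex - 1) * r0) := by
      conv_lhs => rw [show Nat.find hex = Nat.find hex - 1 + 1 by omega]
      rw [pow_succ]; ring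
    omega

/-- the numerical condition for the choice of the path -/
lemma count_cond (hP : PolyG G d K C v) (H R d' Λ ρc : ℕ) (ε : ℝ) (hε : 0 < ε) (hH : 0 < H)
    (hd' : 0 < d') :
    ∃ p₁ : ℕ, ∀ p L ρ E' : ℕ, p₁ ≤ p → L + 1 ≤ p → 0 < ρ → ρ ≤ ρc * Nat.sqrt p →
      ε * p ≤ 4 * d' * ((E' : ℝ) + 1) → 2 * ρ ≤ p / H →
      ((L + 1 : ℕ) : ℝ) * v (5 * p) *
        (((Λ * p : ℕ) : ℝ) * (v R + v (2 * ρ) / (((E' + 1) * ρ : ℕ) : ℝ))) <
        3 / 4 * (v (p / H) : ℝ) * v (p / H) := by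
  set Ke : ℝ := (K : ℝ) ^ (10 * H) with hKe
  have hK0 : (0 : ℝ) < K := by exact_mod_cast hP.K_pos
  have hKe0 : 0 < Ke := by positivity
  have hC0 : (0 : ℝ) < C := by exact_mod_cast hP.C_pos
  have hH0 : (0 : ℝ) < H := by exact_mod_cast hH
  have hd0 : (0 : ℝ) < d' := by exact_mod_cast hd'
  obtain ⟨p2, hp2⟩ := exists_nat_ge (256 * H ^ 3 * C * Ke * Λ * v R)
  obtain ⟨p3, hp3⟩ := exists_nat_ge (8192 * d' / ε * Ke * Λ * C * H ^ 3 * ρc ^ 2)
  refine ⟨max (2 * H) (max p2 p3) + 1, ?_⟩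
  intro p L ρ E' hp hL hρ0 hρ hE h2ρ
  have hpH : 2 * H ≤ p := (le_max_left _ _).trans (by omega : max (2 * H) (max p2 p3) ≤ p)
  have hpp2 : p2 ≤ p := ((le_max_left _ _).trans (le_max_right _ _)).trans
    (by omega : max (2 * H) (max p2 p3) ≤ p)
  have hpp3 : p3 ≤ p := ((le_max_right _ _).trans (le_max_right _ _)).trans
    (by omega : max (2 * H) (max p2 p3) ≤ p)
  set h := p / H with hh
  have hh1 : 1 ≤ h := by
    rw [hh, Nat.le_div_iff_mul_le hH]; omega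
  have hph : p ≤ 2 * H * h := by
    have := Nat.lt_mul_div_succ p hH
    rw [← hh] at this
    nlinarith
  have hp0 : (0 : ℝ) < p := by
    have : 0 < p := by omega
    exact_mod_cast this
  have hv5 : (v (5 * p) : ℝ) ≤ Ke * v h := by
    have h1 : v (5 * p) ≤ K ^ (10 * H) * v h := by
      refine (hP.v_mono (?_ : 5 * p ≤ (10 * H) * h)).trans (hP.v_mul h hh1 ?_)
      · nlinarith
      · exact (Nat.lt_two_pow_self (n := 10 * H)).le
    rw [hKe]
    exact_mod_cast h1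
  have hvh0 : (0 : ℝ) < v h := by exact_mod_cast hP.v_pos h
  have hh3 : (p : ℝ) ^ 3 ≤ 8 * H ^ 3 * h ^ 3 := by
    have h1 : (p : ℝ) ≤ 2 * H * h := by exact_mod_cast hph
    calc (p : ℝ) ^ 3 ≤ (2 * H * h) ^ 3 := pow_le_pow_left₀ hp0.le h1 3
      _ = _ := by ring
  have hvc : (h : ℝ) ^ 3 ≤ 8 * C * v h := by exact_mod_cast hP.v_cube h
  -- first part
  have hvR1 : (1 : ℝ) ≤ v R := by exact_mod_cast hP.v_pos R
  have partA : (p : ℝ) ^ 2 * Ke * Λ * v R ≤ 1 / 4 * v h := by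
    have h1 : (p2 : ℝ) ≤ p := by exact_mod_cast hpp2
    have h2 : 256 * H ^ 3 * C * Ke * Λ * v R ≤ p := hp2.trans h1
    have h3 : (p : ℝ) ^ 3 ≤ 64 * H ^ 3 * C * v h := by
      calc (p : ℝ) ^ 3 ≤ 8 * H ^ 3 * h ^ 3 := hh3
        _ ≤ 8 * H ^ 3 * (8 * C * v h) := mul_le_mul_of_nonneg_left hvc (by positivity)
        _ = _ := by ring
    have h4 : (p : ℝ) ^ 2 * (256 * H ^ 3 * C * Ke * Λ * v R) ≤ (p : ℝ) ^ 2 * p :=
      mul_le_mul_of_nonneg_left h2 (by positivity)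
    have h5 : (256 * H ^ 3 * C : ℝ) * ((p : ℝ) ^ 2 * Ke * Λ * v R) ≤
        (256 * H ^ 3 * C) * (1 / 4 * v h) := by
      calc (256 * H ^ 3 * C : ℝ) * ((p : ℝ) ^ 2 * Ke * Λ * v R)
          = (p : ℝ) ^ 2 * (256 * H ^ 3 * C * Ke * Λ * v R) := by ring
        _ ≤ (p : ℝ) ^ 2 * p := h4
        _ = (p : ℝ) ^ 3 := by ring
        _ ≤ 64 * H ^ 3 * C * v h := h3
        _ = _ := by ring
    exact le_of_mul_le_mul_left h5 (by positivity)
  -- second part
  have hρ0' : (0 : ℝ) < ρ := by exact_mod_cast hρ0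
  have hE0 : (0 : ℝ) < (E' : ℝ) + 1 := by positivity
  have hratio : (h : ℝ) ^ 3 * v (2 * ρ) ≤ 64 * C * ρ ^ 3 * v h := by
    have h1 := cube_ratio hP (2 * ρ) h (by omega) h2ρ
    have h2 : (h : ℝ) ^ 3 * v (2 * ρ) ≤ 8 * C * (2 * ρ : ℕ) ^ 3 * v h := by exact_mod_cast h1
    push_cast at h2
    calc _ ≤ _ := h2
      _ = _ := by ring
  have hρ2 : (ρ : ℝ) ^ 2 ≤ ρc ^ 2 * p := by
    have h1 : ρ ^ 2 ≤ ρc ^ 2 * p := by
      calc ρ ^ 2 ≤ (ρc * Nat.sqrt p) ^ 2 := Nat.pow_le_pow_left hρ 2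
        _ = ρc ^ 2 * (Nat.sqrt p) ^ 2 := by ring
        _ ≤ ρc ^ 2 * p := Nat.mul_le_mul_left _ (Nat.sqrt_le' p)
    exact_mod_cast h1
  have partB : (p : ℝ) ^ 2 * Ke * Λ * (v (2 * ρ) / (((E' : ℝ) + 1) * ρ)) ≤ 1 / 4 * v h := by
    have h1 : (p3 : ℝ) ≤ p := by exact_mod_cast hpp3
    have h2 : 8192 * d' / ε * Ke * Λ * C * H ^ 3 * ρc ^ 2 ≤ p := hp3.trans h1
    have hhpos : (0 : ℝ) < h := by exact_mod_cast hh1
    rw [mul_div_assoc', div_le_iff₀ (by positivity)]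
    -- multiply by `h ^ 3` and by `ε p / (4 d')`
    have h3 : (p : ℝ) ^ 2 * Ke * Λ * v (2 * ρ) * h ^ 3 ≤
        (p : ℝ) ^ 2 * Ke * Λ * (64 * C * ρ ^ 3 * v h) := by
      calc (p : ℝ) ^ 2 * Ke * Λ * v (2 * ρ) * h ^ 3
          = (p : ℝ) ^ 2 * Ke * Λ * (h ^ 3 * v (2 * ρ)) := by ring
        _ ≤ _ := mul_le_mul_of_nonneg_left hratio (by positivity)
    have h4 : (p : ℝ) ^ 2 * Ke * Λ * (64 * C * ρ ^ 3 * v h) ≤
        (1 / 4 * v h * (((E' : ℝ) + 1) * ρ)) * h ^ 3 := by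
      have h5 : 64 * Ke * Λ * C * ρc ^ 2 * (128 * d' * H ^ 3) ≤ ε * p := by
        have := mul_le_mul_of_nonneg_left h2 hε.le
        calc 64 * Ke * Λ * C * ρc ^ 2 * (128 * d' * H ^ 3)
            = ε * (8192 * d' / ε * Ke * Λ * C * H ^ 3 * ρc ^ 2) := by field_simp; ring
          _ ≤ _ := this
      have h6 : (ε * p) * (p : ℝ) ^ 3 ≤ (4 * d' * ((E' : ℝ) + 1)) * (8 * H ^ 3 * h ^ 3) :=
        mul_le_mul hE hh3 (by positivity) (by positivity)
      have h7 : (p : ℝ) ^ 2 * Ke * Λ * (64 * C * ρ ^ 2) ≤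
          1 / 4 * ((E' : ℝ) + 1) * h ^ 3 := by
        have h8 : ((p : ℝ) ^ 2 * Ke * Λ * (64 * C * ρ ^ 2)) * (128 * d' * H ^ 3) ≤
            (1 / 4 * ((E' : ℝ) + 1) * h ^ 3) * (128 * d' * H ^ 3) := by
          calc ((p : ℝ) ^ 2 * Ke * Λ * (64 * C * ρ ^ 2)) * (128 * d' * H ^ 3)
              = ((p : ℝ) ^ 2 * Ke * Λ * 64 * C * (128 * d' * H ^ 3)) * ρ ^ 2 := by ring
            _ ≤ ((p : ℝ) ^ 2 * Ke * Λ * 64 * C * (128 * d' * H ^ 3)) * (ρc ^ 2 * p) :=
                mul_le_mul_of_nonneg_left hρ2 (by positivity)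
            _ = (64 * Ke * Λ * C * ρc ^ 2 * (128 * d' * H ^ 3)) * (p : ℝ) ^ 3 := by ring
            _ ≤ (ε * p) * (p : ℝ) ^ 3 := mul_le_mul_of_nonneg_right h5 (by positivity)
            _ ≤ (4 * d' * ((E' : ℝ) + 1)) * (8 * H ^ 3 * h ^ 3) := h6
            _ = _ := by ring
        exact le_of_mul_le_mul_right h8 (by positivity)
      calc (p : ℝ) ^ 2 * Ke * Λ * (64 * C * ρ ^ 3 * v h)
          = ((p : ℝ) ^ 2 * Ke * Λ * (64 * C * ρ ^ 2)) * (ρ * v h) := by ring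
        _ ≤ (1 / 4 * ((E' : ℝ) + 1) * h ^ 3) * (ρ * v h) :=
            mul_le_mul_of_nonneg_right h7 (by positivity)
        _ = _ := by ring
    exact le_of_mul_le_mul_right (h3.trans h4) (by positivity)
  have hLp : ((L + 1 : ℕ) : ℝ) ≤ p := by exact_mod_cast hL
  have hS0 : (0 : ℝ) ≤ (v R : ℝ) + v (2 * ρ) / (((E' + 1) * ρ : ℕ) : ℝ) := by positivity
  have e1 : (((E' + 1) * ρ : ℕ) : ℝ) = ((E' : ℝ) + 1) * ρ := by push_cast; ring
  calc ((L + 1 : ℕ) : ℝ) * v (5 * p) *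
        (((Λ * p : ℕ) : ℝ) * (v R + v (2 * ρ) / (((E' + 1) * ρ : ℕ) : ℝ)))
      ≤ (p * (Ke * v h)) *
        (((Λ * p : ℕ) : ℝ) * (v R + v (2 * ρ) / (((E' + 1) * ρ : ℕ) : ℝ))) := by
        apply mul_le_mul_of_nonneg_right _ (by positivity)
        exact mul_le_mul hLp hv5 (Nat.cast_nonneg _) hp0.le
    _ = ((p : ℝ) ^ 2 * Ke * Λ * v R +
        (p : ℝ) ^ 2 * Ke * Λ * (v (2 * ρ) / (((E' : ℝ) + 1) * ρ))) * v h := by
        rw [e1]; push_cast; ring
    _ ≤ (1 / 4 * v h + 1 / 4 * v h) * v h :=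
        mul_le_mul_of_nonneg_right (add_le_add partA partB) hvh0.le
    _ < _ := by nlinarith [mul_pos hvh0 hvh0]

lemma num_cut_real (p q h m i C' s H ε : ℝ) (hC : 0 ≤ C') (hs : 0 < s)
    (h1 : p - 5 * h < s * (m + 1)) (h3 : i * s ≤ p / H + s)
    (h4 : C' * (p / H) ≤ ε * p * s / 8) (h5 : C' * (5 * h) ≤ ε * p * s / 8)
    (h6 : C' * (2 * s) ≤ ε * p * s / 4) (hq : q * s + ε * p * s ≤ C' * p) :
    q + ε * p / 2 ≤ C' * (m - i) := by
  have e1 : (m - i) * s = s * m - i * s := by ring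
  have h7 : p - 5 * h - 2 * s - p / H ≤ (m - i) * s := by
    rw [e1]
    have : s * (m + 1) = s * m + s := by ring
    linarith
  have h8 := mul_le_mul_of_nonneg_left h7 hC
  have e2 : C' * (p - 5 * h - 2 * s - p / H) =
      C' * p - C' * (5 * h) - C' * (2 * s) - C' * (p / H) := by ring
  have e3 : C' * ((m - i) * s) = C' * (m - i) * s := by ring
  have e4 : (q + ε * p / 2) * s = q * s + ε * p * s / 2 := by ring
  have h9 : (q + ε * p / 2) * s ≤ C' * (m - i) * s := by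
    rw [e4, ← e3]
    linarith
  exact le_of_mul_le_mul_right h9 hs

lemma num_cut (p q h m i0 C' s H2 d E' : ℕ) (ε : ℝ) (hε : 0 < ε) (hs1 : 1 ≤ s) (hp0 : 0 < p)
    (hH2 : 0 < H2) (hi0m : i0 ≤ m) (hms : m * s ≤ p - 5 * h) (hms2 : p - 5 * h < s * (m + 1))
    (h5p : 5 * h ≤ p) (hi0 : i0 = m / H2 + 1) (hH2' : 8 * (C' : ℝ) ≤ ε * s * H2)
    (hhH : h * (384 * s * H2) ≤ p) (hC'p : 8 * (C' : ℝ) ≤ ε * p)
    (hE1 : (d : ℝ) * E' ≤ ε * p / 4) (hqr : (q : ℝ) * s + ε * p * s ≤ C' * p) :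
    q + d * E' + d * E' ≤ (m - i0) * C' := by
  have hsr : (0 : ℝ) < s := by exact_mod_cast hs1
  have hpr : (0 : ℝ) < p := by exact_mod_cast hp0
  have hH2r : (0 : ℝ) < H2 := by exact_mod_cast hH2
  have e1 : (((m - i0 : ℕ) : ℝ)) = m - i0 := by rw [Nat.cast_sub hi0m]
  have h1 : (p : ℝ) - 5 * h < s * (m + 1) := by
    have h5 : ((p - 5 * h : ℕ) : ℝ) < s * (m + 1) := by exact_mod_cast hms2
    rw [Nat.cast_sub h5p] at h5
    push_cast at h5
    exact h5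
  have h2 : (m : ℝ) * s ≤ p := by
    have : m * s ≤ p := hms.trans (Nat.sub_le _ _)
    exact_mod_cast this
  have h3 : (i0 : ℝ) * s ≤ p / H2 + s := by
    have h5 : ((m / H2 : ℕ) : ℝ) ≤ m / H2 := Nat.cast_div_le
    have h6 : (i0 : ℝ) = (m / H2 : ℕ) + 1 := by rw [hi0]; push_cast; ring
    rw [h6, add_mul, one_mul]
    have h7 : ((m / H2 : ℕ) : ℝ) * s ≤ m / H2 * s := mul_le_mul_of_nonneg_right h5 hsr.le
    have h8 : (m : ℝ) / H2 * s = m * s / H2 := by ring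
    have h9 : (m : ℝ) * s / H2 ≤ p / H2 := div_le_div_of_nonneg_right h2 hH2r.le
    linarith
  have h4 : (C' : ℝ) * (p / H2) ≤ ε * p * s / 8 := by
    rw [mul_div_assoc', div_le_iff₀ hH2r]
    have := mul_le_mul_of_nonneg_right hH2' hpr.le
    have e : ε * p * s / 8 * H2 = ε * s * H2 * p / 8 := by ring
    rw [e]
    linarith
  have h5 : (C' : ℝ) * (5 * h) ≤ ε * p * s / 8 := by
    have h7 : (5 * h : ℝ) ≤ p / H2 := by
      rw [le_div_iff₀ hH2r]
      have h8 : 5 * h * H2 ≤ p := by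
        refine le_trans ?_ hhH
        calc 5 * h * H2 = h * (5 * 1 * H2) := by ring
          _ ≤ h * (384 * s * H2) := by
            apply Nat.mul_le_mul_left
            apply Nat.mul_le_mul_right
            exact Nat.mul_le_mul (by norm_num) hs1
      exact_mod_cast h8
    exact (mul_le_mul_of_nonneg_left h7 (Nat.cast_nonneg _)).trans h4
  have h6 : (C' : ℝ) * (2 * s) ≤ ε * p * s / 4 := by
    have := mul_le_mul_of_nonneg_right hC'p hsr.le
    have e : (C' : ℝ) * (2 * s) = 8 * C' * s / 4 := by ring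
    rw [e]
    linarith
  have h9 := num_cut_real p q h m i0 C' s H2 ε (Nat.cast_nonneg _) hsr h1 h3 h4 h5 h6 hqr
  have h10 : ((q + d * E' + d * E' : ℕ) : ℝ) ≤ (((m - i0) * C' : ℕ) : ℝ) := by
    push_cast
    rw [e1]
    have e : ((m : ℝ) - i0) * C' = C' * (m - i0) := by ring
    rw [e]
    linarith
  exact_mod_cast h10

lemma num_exp (p q C' d E' A0 J r0 κ1 : ℕ) (ε : ℝ) (hε : 0 < ε) (hd0 : 0 < d)
    (hr01 : 1 ≤ r0) (hJ : J = A0 * r0) (hκ1 : ε + 2 * C' ≤ κ1) (hA0 : 64 * d * κ1 ≤ ε * A0)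
    (hq1 : q ≤ C' * p) (hE1 : (d : ℝ) * E' ≤ ε * p / 4) (hE3 : ε * p ≤ 8 * d * E') :
    4 * (E' + 2 * q) * (r0 + 1) ≤ J * E' := by
  have hpr : (0 : ℝ) ≤ p := Nat.cast_nonneg _
  have hdr : (0 : ℝ) < d := by exact_mod_cast hd0
  have h1 : (E' : ℝ) + 2 * q ≤ κ1 * p := by
    have h2 : (q : ℝ) ≤ C' * p := by exact_mod_cast hq1
    have h3 : (1 : ℝ) ≤ d := by exact_mod_cast hd0
    have h4 : (1 : ℝ) * E' ≤ d * E' := mul_le_mul_of_nonneg_right h3 (Nat.cast_nonneg _)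
    have h6 : 0 ≤ ε * p := by positivity
    have h5 : (E' : ℝ) ≤ ε * p := by linarith
    calc (E' : ℝ) + 2 * q ≤ ε * p + 2 * (C' * p) := by linarith
      _ = (ε + 2 * C') * p := by ring
      _ ≤ κ1 * p := mul_le_mul_of_nonneg_right hκ1 hpr
  have h2 : ((r0 : ℝ) + 1) ≤ 2 * r0 := by
    have : (1 : ℝ) ≤ r0 := by exact_mod_cast hr01
    linarith
  have h4 : (4 : ℝ) * (E' + 2 * q) * (r0 + 1) ≤ J * E' := by
    have hr0r : (0 : ℝ) ≤ r0 := Nat.cast_nonneg _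
    have e : (J : ℝ) = A0 * r0 := by rw [hJ]; push_cast; ring
    calc (4 : ℝ) * (E' + 2 * q) * (r0 + 1) ≤ 4 * (κ1 * p) * (2 * r0) := by
          apply mul_le_mul _ h2 (by positivity) (by positivity)
          linarith
      _ = (8 * κ1 * p) * r0 := by ring
      _ ≤ (A0 * E') * r0 := by
          apply mul_le_mul_of_nonneg_right _ hr0r
          have h5 : (8 * κ1 * p : ℝ) * (8 * d) ≤ (A0 * E') * (8 * d) := by
            calc (8 * κ1 * p : ℝ) * (8 * d) = (64 * d * κ1) * p := by ring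
              _ ≤ (ε * A0) * p := mul_le_mul_of_nonneg_right hA0 hpr
              _ = A0 * (ε * p) := by ring
              _ ≤ A0 * (8 * d * E') := mul_le_mul_of_nonneg_left hE3 (Nat.cast_nonneg _)
              _ = _ := by ring
          exact le_of_mul_le_mul_right h5 (by positivity)
      _ = _ := by rw [e]; ring
  exact_mod_cast h4

lemma num_vol (hP : PolyG G d K C v) (AA B0 t p r : ℕ) (hC0 : 0 < C) (ht0 : 1 ≤ t)
    (ht2 : p < (t + 1) * (t + 1)) (hB01 : 1 ≤ B0) (hB0 : 512 * C * AA ≤ B0 * p)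
    (hr : B0 * t ≤ r) : 16 * AA * (2 * r + 1) ≤ 3 * v r := by
  have h1 : p ≤ 4 * (t * t) := by
    have : (t + 1) * (t + 1) ≤ (2 * t) * (2 * t) := Nat.mul_le_mul (by omega) (by omega)
    have e : (2 * t) * (2 * t) = 4 * (t * t) := by ring
    omega
  have h2 : B0 * t * (B0 * t) ≤ r * r := Nat.mul_le_mul hr hr
  have h3 : B0 * (t * t) ≤ B0 * t * (B0 * t) := by
    have : 1 * (B0 * (t * t)) ≤ B0 * (B0 * (t * t)) := Nat.mul_le_mul_right _ hB01
    calc B0 * (t * t) = 1 * (B0 * (t * t)) := by ring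
      _ ≤ B0 * (B0 * (t * t)) := this
      _ = _ := by ring
  have h5 : B0 * p ≤ B0 * (4 * (t * t)) := Nat.mul_le_mul_left _ h1
  have h6 : 128 * C * AA ≤ r * r := by
    have e1 : B0 * (4 * (t * t)) = 4 * (B0 * (t * t)) := by ring
    have e2 : 512 * C * AA = 4 * (128 * C * AA) := by ring
    omega
  have hr1 : 1 ≤ r := (Nat.mul_pos hB01 ht0 : 0 < B0 * t).trans_le hr
  have h7 := hP.v_cube r
  have h8 : 8 * C * (16 * AA * (2 * r + 1)) ≤ 8 * C * (3 * v r) := by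
    calc 8 * C * (16 * AA * (2 * r + 1)) ≤ 8 * C * (16 * AA * (3 * r)) := by
          apply Nat.mul_le_mul_left
          apply Nat.mul_le_mul_left
          omega
      _ = 3 * (128 * C * AA) * r := by ring
      _ ≤ 3 * (r * r) * r := Nat.mul_le_mul_right _ (Nat.mul_le_mul_left _ h6)
      _ = 3 * r ^ 3 := by ring
      _ ≤ 3 * (8 * C * v r) := Nat.mul_le_mul_left _ h7
      _ = _ := by ring
  exact Nat.le_of_mul_le_mul_left h8 (by positivity)

lemma num_T (p h m i0 s ℓ H2 : ℕ) (hℓ0 : 0 < ℓ) (hi0H : m ≤ H2 * i0)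
    (hms2 : p - 5 * h < s * (m + 1)) (hhH : h * (384 * s * H2) ≤ p) (h384 : 384 * h ≤ p)
    (hps : 32 * s ≤ p) : p + 4 * s * H2 * (7 * h) ≤ 4 * s * H2 * (i0 * ℓ) := by
  have h1 : 4 * s * (H2 * i0) ≤ 4 * s * H2 * (i0 * ℓ) := by
    calc 4 * s * (H2 * i0) = 4 * s * H2 * (i0 * 1) := by ring
      _ ≤ 4 * s * H2 * (i0 * ℓ) := Nat.mul_le_mul_left _ (Nat.mul_le_mul_left _ hℓ0)
  have h2 : 4 * s * m ≤ 4 * s * (H2 * i0) := Nat.mul_le_mul_left _ hi0H
  have h3 : s * (m + 1) = s * m + s := by ring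
  have h4 : 4 * s * m = 4 * (s * m) := by ring
  have h5 : h * (384 * s * H2) = 384 * (s * H2 * h) := by ring
  have h6 : 4 * s * H2 * (7 * h) = 28 * (s * H2 * h) := by ring
  omega

set_option maxHeartbeats 1000000 in
/-- One round of the game (module D of the polynomial growth theorem). -/
theorem turn' (hP : PolyG G d K C v) (hgeo : GeoProp G v) (ℓ s R C' : ℕ)
    (hS : StaticHyp G ℓ s R C') (ε : ℝ) (hε : 0 < ε) (v₀ : V) :
    ∃ (At : ℕ → Finset (Sym2 V) → Finset (Sym2 V) → V → Prop) (T : ℕ), 0 < T ∧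
      (∀ p, At p ∅ ∅ v₀) ∧ ∀ Λ : ℕ, ∃ p₀ : ℕ, ∀ p q : ℕ, p₀ ≤ p →
        (q + ε * p) * s ≤ C' * p → TurnHyp G v₀ p q T Λ (At p) := by
  classical
  have hℓ0 := hS.1
  have hs0 : 64 ≤ s := by
    have := hS.2.1
    omega
  have hd0 : 0 < d := by
    obtain ⟨x⟩ : Nonempty V := hP.conn.nonempty
    obtain ⟨z, hz⟩ := hP.exists_dist_eq x 1
    rw [SimpleGraph.dist_eq_one_iff_adj] at hz
    have : 0 < (G.neighborFinset x).card := card_pos.2 ⟨z, by simpa using hz⟩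
    exact this.trans_le (hP.deg x)
  have hC0 := hP.C_pos
  have hsr : (0 : ℝ) < s := by exact_mod_cast (by omega : 0 < s)
  have hdr : (0 : ℝ) < d := by exact_mod_cast hd0
  obtain ⟨H3, hH3⟩ := exists_nat_ge (8 * C' / (ε * s))
  set H2 := H3 + 2 with hH2
  set H := 384 * s * H2 with hHdef
  have hH0 : 0 < H := by rw [hHdef]; positivity
  have hH384 : 384 ≤ H := by
    rw [hHdef]
    calc 384 = 384 * 1 * 1 := by norm_num
      _ ≤ 384 * s * H2 := Nat.mul_le_mul (Nat.mul_le_mul_left _ (by omega)) (by omega)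
  refine ⟨fun p => AtD G v v₀ H p, 4 * s * H2, by positivity, ?_, ?_⟩
  · intro p
    refine ⟨bl G v₀ (p / H), bl_mono hP.conn _ (by omega), ?_, ?_⟩
    · rw [hP.vol]; omega
    · intro x hx
      rw [mem_bl hP.conn] at hx
      obtain ⟨w, hw⟩ := hP.conn.exists_walk_length_eq_dist v₀ x
      have h0 : Rch G v₀ ∅ ∅ 0 v₀ := ⟨∅, by simp, by simp, by simp, SimpleGraph.Reachable.refl _⟩
      refine (h0.walk w ?_).mono (by omega)
      intro k hk
      rw [mem_vert] at hk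
      obtain ⟨e, he, -⟩ := hk
      simp at he
  · intro Λ
    obtain ⟨κ1, hκ1⟩ := exists_nat_ge (ε + 2 * C')
    obtain ⟨A0', hA0'⟩ := exists_nat_ge (64 * d * κ1 / ε)
    set A0 := A0' + 1 with hA0
    set B0 := 512 * C * (Λ + 2 * C') + 1 with hB0
    set ρc := R + (A0 + 1) * B0 with hρc
    obtain ⟨p1, hp1⟩ := count_cond hP H R d Λ ρc ε hε hH0 hd0
    obtain ⟨p2, hp2⟩ := exists_nat_ge (8 * C' / ε + 8 * d / ε)
    refine ⟨p1 + p2 + 32 * s + (2 * ρc * H) * (2 * ρc * H) + (4 * ρc * s) * (4 * ρc * s) + 1, ?_⟩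
    intro p q hp hq M B y a _ hAt hcl hya1 hya2
    have hpp1 : p1 ≤ p := by omega
    have hpp2 : p2 ≤ p := by omega
    have hps : 32 * s ≤ p := by omega
    have hp0 : 0 < p := by omega
    have hpr : (0 : ℝ) < p := by exact_mod_cast hp0
    set t := Nat.sqrt p with ht
    have ht1 : t * t ≤ p := Nat.sqrt_le p
    have ht2 : p < (t + 1) * (t + 1) := Nat.lt_succ_sqrt p
    have ht3 : 2 * ρc * H ≤ t := Nat.le_sqrt.2 (by omega)
    have ht4 : 4 * ρc * s ≤ t := Nat.le_sqrt.2 (by omega)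
    have hB01 : 1 ≤ B0 := by omega
    have hA01 : 1 ≤ A0 := by omega
    have hρc2 : 2 ≤ ρc := by
      have : (1 + 1) * 1 ≤ (A0 + 1) * B0 := Nat.mul_le_mul (by omega) hB01
      omega
    have ht0 : 1 ≤ t := by
      have : 0 < 2 * ρc * H := by positivity
      omega
    set h := p / H with hh
    set m := (p - 5 * h) / s with hm
    set i0 := m / H2 + 1 with hi0
    set r0 := B0 * t with hr0
    set J := A0 * r0 with hJ
    set ρ := R + J + r0 with hρ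
    set E' := ⌊ε * p / (4 * d)⌋₊ with hE'
    have hr01 : 1 ≤ r0 := Nat.mul_pos hB01 ht0
    have hhH : h * H ≤ p := Nat.div_mul_le_self p H
    have h384 : 384 * h ≤ p := by
      have : h * 384 ≤ h * H := Nat.mul_le_mul_left _ hH384
      omega
    have hρt : ρ ≤ ρc * t := by
      have e : ρc * t = R * t + (A0 * (B0 * t) + B0 * t) := by rw [hρc]; ring
      have h1 : R * 1 ≤ R * t := Nat.mul_le_mul_left _ ht0
      rw [hρ, hJ, hr0, e]
      omega
    have h2ρh : 2 * (ρc * t) ≤ h := by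
      rw [hh, Nat.le_div_iff_mul_le hH0]
      calc 2 * (ρc * t) * H = (2 * ρc * H) * t := by ring
        _ ≤ t * t := Nat.mul_le_mul_right _ ht3
        _ ≤ p := ht1
    have hρh : ρ ≤ h := by omega
    have hr0h : r0 ≤ h := by omega
    obtain ⟨f, hf1, hf2⟩ := exists_pow_between r0 h hr01 hr0h
    have hs1 : 0 < s := by omega
    have hms : m * s ≤ p - 5 * h := Nat.div_mul_le_self _ _
    have hms2 : p - 5 * h < s * (m + 1) := Nat.lt_mul_div_succ _ hs1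
    have hm2 : 2 * (ρc * t) ≤ m := by
      rw [hm, Nat.le_div_iff_mul_le hs1]
      have h1 : 4 * ρc * s * t ≤ t * t := Nat.mul_le_mul_right _ ht4
      have e : 4 * ρc * s * t = 2 * (2 * (ρc * t) * s) := by ring
      omega
    have hm4 : 4 ≤ m := by
      have : 2 * 1 ≤ ρc * t := Nat.mul_le_mul hρc2 ht0
      omega
    have hi0m : i0 ≤ m := by
      have h1 : m / H2 ≤ m / 2 := Nat.div_le_div_left (by omega) (by norm_num)
      omega
    have hi0H : m ≤ H2 * i0 := by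
      have := Nat.lt_mul_div_succ m (by omega : 0 < H2)
      exact this.le
    -- real estimates
    have hqr : (q : ℝ) * s + ε * p * s ≤ C' * p := by linarith
    have hq1 : q ≤ C' * p := by
      have h1 : (1 : ℝ) ≤ s := by exact_mod_cast hs1
      have h2 : (q : ℝ) * 1 ≤ q * s := mul_le_mul_of_nonneg_left h1 (Nat.cast_nonneg _)
      have h3 : 0 ≤ ε * p * s := by positivity
      have h4 : (q : ℝ) ≤ C' * p := by linarith
      exact_mod_cast h4
    have hp2r : 8 * C' / ε + 8 * d / ε ≤ p := hp2.trans (by exact_mod_cast hpp2)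
    have hC'p : 8 * C' ≤ ε * p := by
      have h1 : 8 * C' / ε ≤ p := by
        have : 0 ≤ 8 * d / ε := by positivity
        linarith
      rw [div_le_iff₀ hε] at h1
      linarith
    have hdp : 8 * d ≤ ε * p := by
      have h1 : 8 * d / ε ≤ p := by
        have : 0 ≤ 8 * C' / ε := by positivity
        linarith
      rw [div_le_iff₀ hε] at h1
      linarith
    have hE1 : (d : ℝ) * E' ≤ ε * p / 4 := by
      have h1 : (E' : ℝ) ≤ ε * p / (4 * d) := Nat.floor_le (by positivity)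
      rw [le_div_iff₀ (by positivity)] at h1
      linarith
    have hE2 : ε * p ≤ 4 * d * ((E' : ℝ) + 1) := by
      have h1 : ε * p / (4 * d) < E' + 1 := Nat.lt_floor_add_one _
      rw [div_lt_iff₀ (by positivity)] at h1
      linarith
    have hE4 : 1 ≤ E' := by
      rw [hE']
      apply Nat.le_floor
      rw [Nat.cast_one, le_div_iff₀ (by positivity)]
      linarith
    have hE3 : ε * p ≤ 8 * d * E' := by
      have h1 : (1 : ℝ) ≤ E' := by exact_mod_cast hE4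
      have h2 : (4 * d : ℝ) * (E' + 1) ≤ 4 * d * (2 * E') :=
        mul_le_mul_of_nonneg_left (by linarith) (by positivity)
      linarith
    have hH2' : 8 * (C' : ℝ) ≤ ε * s * H2 := by
      have h6 : 8 * C' / (ε * s) ≤ H2 := hH3.trans (by
        have : H3 ≤ H2 := by omega
        exact_mod_cast this)
      rw [div_le_iff₀ (by positivity)] at h6
      linarith
    have hA0'' : 64 * (d : ℝ) * κ1 ≤ ε * A0 := by
      have h4 : 64 * d * κ1 / ε ≤ A0 := hA0'.trans (by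
        have : A0' ≤ A0 := by omega
        exact_mod_cast this)
      rw [div_le_iff₀ hε] at h4
      linarith
    have hn6 : q + d * E' + d * E' ≤ (m - i0) * C' :=
      num_cut p q h m i0 C' s H2 d E' ε hε hs1 hp0 (by omega) hi0m hms hms2 (by omega) hi0 hH2'
        hhH hC'p hE1 hqr
    have hn9 : 4 * (E' + 2 * q) * (r0 + 1) ≤ J * E' :=
      num_exp p q C' d E' A0 J r0 κ1 ε hε hd0 hr01 hJ hκ1 hA0'' hq1 hE1 hE3
    have hn10 : ∀ r, r0 ≤ r → 16 * ((Λ + 2 * C') * p) * (2 * r + 1) ≤ 3 * v r := by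
      intro r hr
      refine num_vol hP ((Λ + 2 * C') * p) B0 t p r hC0 ht0 ht2 hB01 ?_ hr
      calc 512 * C * ((Λ + 2 * C') * p) = 512 * C * (Λ + 2 * C') * p := by ring
        _ ≤ B0 * p := Nat.mul_le_mul_right _ (by omega)
    have hcount := hp1 p (m * ℓ) ρ E' hpp1 (by
        have h1 : m * (64 * ℓ) ≤ m * s := Nat.mul_le_mul_left _ hS.2.1
        have e : m * (64 * ℓ) = 64 * (m * ℓ) := by ring
        omega) (by omega) hρt hE2 (by omega)
    have hT : p + 4 * s * H2 * (7 * h) ≤ 4 * s * H2 * (i0 * ℓ) :=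
      num_T p h m i0 s ℓ H2 hℓ0 hi0H hms2 hhH h384 hps
    exact turn_core hP hgeo v₀ y a M B ℓ s R C' H m i0 q E' J E' r0 f ρ ((Λ + 2 * C') * p) p
      (Λ * p) (4 * s * H2) hS hd0 (by omega) hcl hya1 hya2 hAt (by omega) (by omega) hi0m h384
      (by omega) hcount (by
        have : m * 1 ≤ m * ℓ := Nat.mul_le_mul_left _ hℓ0
        omega) le_rfl (Nat.mul_pos (Nat.mul_pos hA01 hr01) hE4) hn6 hn9 (by
        have e : (Λ + 2 * C') * p = Λ * p + 2 * (C' * p) := by ring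
        omega) hn10 hf1 hf2 hρh hT

end Pool.Agent.Helper30.PGT
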